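import Mathlib

set_option autoImplicit false

namespace Pool.Agent.Results.MP_b81f9a_an.LeRoyCM

open MeasureTheory Filter Topology Set
open scoped ContDiff

/-- The Le Roy type Mittag-Leffler function `F^{(γ)}_{α,β}` at a real argument. -/
noncomputable def leRoy (α β γ x : ℝ) : ℝ :=
  ∑' n : ℕ, x ^ n / (Real.Gamma (α * n + β)) ^ γ

/-- Complete monotonicity on `(0, ∞)`. -/
def CM (f : ℝ → ℝ) : Prop :=
  ContDiffOn ℝ ∞ f (Ioi 0) ∧ ∀ k : ℕ, ∀ x : ℝ, 0 < x → 0 ≤ (-1) ^ k * iteratedDeriv k f x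

/-- The condition `(C_{α,β,γ})`. -/
def Cond (α β γ : ℝ) : Prop :=
  ∀ z : ℝ, 0 < z → z < 1 → z + γ * (z ^ (β - α) - z ^ β) ≤ 1

/-! ### Moment sequences of measures with compact support in `[0, ∞)` -/

/-- `a` is the moment sequence of a finite measure carried by some `[0, C]`. -/
def IsMom (a : ℕ → ℝ) : Prop :=
  ∃ (μ : Measure ℝ) (C : ℝ), IsFiniteMeasure μ ∧ 0 ≤ C ∧ (∀ᵐ t ∂μ, t ∈ Icc 0 C) ∧
    ∀ n, a n = ∫ t, t ^ n ∂μ

theorem IsMom.mul {a b : ℕ → ℝ} (ha : IsMom a) (hb : IsMom b) : IsMom (fun n => a n * b n) := by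
  obtain ⟨μ, C, hμ, hC, hs, h⟩ := ha
  obtain ⟨ν, D, hν, hD, ht, h'⟩ := hb
  refine ⟨(μ.prod ν).map (fun p => p.1 * p.2), C * D, inferInstance, by positivity, ?_, ?_⟩
  · refine (ae_map_iff (p := fun t => t ∈ Icc 0 (C * D)) (by fun_prop)
      (measurableSet_Icc (a := (0 : ℝ)) (b := C * D))).mpr ?_
    have h1 : ∀ᵐ p ∂(μ.prod ν), p.1 ∈ Icc 0 C := Measure.quasiMeasurePreserving_fst.ae hs
    have h2 : ∀ᵐ p ∂(μ.prod ν), p.2 ∈ Icc 0 D := Measure.quasiMeasurePreserving_snd.ae ht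
    filter_upwards [h1, h2] with p hp hq
    exact ⟨mul_nonneg hp.1 hq.1, mul_le_mul hp.2 hq.2 hq.1 hC⟩
  · intro n
    rw [integral_map (by fun_prop) (by fun_prop)]
    simp_rw [mul_pow]
    rw [integral_prod_mul (fun x : ℝ => x ^ n) (fun y : ℝ => y ^ n), ← h, ← h']

theorem isMom_pow (D : ℝ) (hD : 0 ≤ D) : IsMom (fun n => D ^ n) := by
  refine ⟨Measure.dirac D, D, inferInstance, hD, ?_, ?_⟩
  · exact (ae_dirac_iff (p := fun t => t ∈ Icc 0 D)
      (measurableSet_Icc (a := (0 : ℝ)) (b := D))).mpr ⟨hD, le_refl _⟩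
  · intro n
    rw [integral_dirac]

theorem isMom_const (c : ℝ) (hc : 0 ≤ c) : IsMom (fun _ => c) := by
  refine ⟨(ENNReal.ofReal c) • Measure.dirac 1, 1, ?_, zero_le_one, ?_, ?_⟩
  · exact Measure.smul_finite _ ENNReal.ofReal_ne_top
  · apply Measure.ae_smul_measure
    exact (ae_dirac_iff (p := fun t => t ∈ Icc (0 : ℝ) 1)
      (measurableSet_Icc (a := (0 : ℝ)) (b := 1))).mpr ⟨zero_le_one, le_refl _⟩
  · intro n
    rw [integral_smul_measure, integral_dirac, ENNReal.toReal_ofReal hc]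
    simp

theorem isMom_prod (r : ℕ → ℕ → ℝ) (h : ∀ k, IsMom (r k)) (K : ℕ) :
    IsMom (fun n => ∏ k ∈ Finset.range K, r k n) := by
  induction K with
  | zero => simpa using isMom_const 1 zero_le_one
  | succ K ih =>
    simp_rw [Finset.prod_range_succ]
    exact ih.mul (h K)

/-- The elementary factors. -/
noncomputable def r (k n : ℕ) : ℝ :=
  ((n : ℝ) / 3 + 13 / 30 + k) ^ 2 / ((n + 3 * k + 1) * (n + 3 * k + 2) * (n + 3 * k + 3))

/-- The density whose moments are the elementary factors. -/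
noncomputable def w (k : ℕ) (u : ℝ) : ℝ :=
  u ^ (3 * k) * (1 / 200 - 49 / 900 * u + 289 / 1800 * u ^ 2)

theorem w_nonneg (k : ℕ) {u : ℝ} (hu : 0 ≤ u) : 0 ≤ w k u := by
  unfold w
  apply mul_nonneg (by positivity)
  nlinarith [sq_nonneg (u - 49 / 289)]

theorem isMom_r (k : ℕ) : IsMom (r k) := by
  have hcont : Continuous (w k) := by unfold w; fun_prop
  refine ⟨(volume.restrict (Icc (0 : ℝ) 1)).withDensity (fun u => ENNReal.ofReal (w k u)), 1,
    ?_, zero_le_one, ?_, ?_⟩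
  · apply isFiniteMeasure_withDensity_ofReal
    exact (hcont.integrableOn_Icc (a := 0) (b := 1)).2
  · apply (withDensity_absolutelyContinuous _ _).ae_le
    exact ae_restrict_mem measurableSet_Icc
  · intro n
    rw [integral_withDensity_eq_integral_toReal_smul (by fun_prop)
      (Eventually.of_forall fun _ => ENNReal.ofReal_lt_top)]
    have h1 : ∫ u in Icc (0 : ℝ) 1, (ENNReal.ofReal (w k u)).toReal • u ^ n =
        ∫ u in Icc (0 : ℝ) 1, w k u * u ^ n := by
      apply setIntegral_congr_fun measurableSet_Icc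
      intro u hu
      show (ENNReal.ofReal (w k u)).toReal • u ^ n = w k u * u ^ n
      rw [ENNReal.toReal_ofReal (w_nonneg k hu.1), smul_eq_mul]
    rw [h1, integral_Icc_eq_integral_Ioc, ← intervalIntegral.integral_of_le zero_le_one]
    have h2 : ∀ u : ℝ, w k u * u ^ n = 1 / 200 * u ^ (3 * k + n) - 49 / 900 * u ^ (3 * k + n + 1)
        + 289 / 1800 * u ^ (3 * k + n + 2) := by
      intro u
      unfold w
      ring
    simp_rw [h2]
    have c1 : IntervalIntegrable (fun u : ℝ => 1 / 200 * u ^ (3 * k + n)) volume 0 1 :=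
      (by fun_prop : Continuous fun u : ℝ => 1 / 200 * u ^ (3 * k + n)).intervalIntegrable _ _
    have c2 : IntervalIntegrable (fun u : ℝ => 49 / 900 * u ^ (3 * k + n + 1)) volume 0 1 :=
      (by fun_prop : Continuous fun u : ℝ => 49 / 900 * u ^ (3 * k + n + 1)).intervalIntegrable _ _
    have c3 : IntervalIntegrable (fun u : ℝ => 289 / 1800 * u ^ (3 * k + n + 2)) volume 0 1 :=
      (by fun_prop : Continuous fun u : ℝ =>
        289 / 1800 * u ^ (3 * k + n + 2)).intervalIntegrable _ _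
    rw [intervalIntegral.integral_add (c1.sub c2) c3, intervalIntegral.integral_sub c1 c2,
      intervalIntegral.integral_const_mul, intervalIntegral.integral_const_mul,
      intervalIntegral.integral_const_mul, integral_pow, integral_pow, integral_pow]
    have e : ∀ m : ℕ, ((1 : ℝ) ^ (m + 1) - 0 ^ (m + 1)) = 1 := by intro m; simp
    rw [e, e, e]
    unfold r
    push_cast
    have hN : (0 : ℝ) ≤ n := Nat.cast_nonneg n
    have hM : (0 : ℝ) ≤ k := Nat.cast_nonneg k
    generalize (n : ℝ) = N at *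
    generalize (k : ℝ) = M at *
    have e1 : N + 3 * M + 1 ≠ 0 := by positivity
    have e2 : N + 3 * M + 2 ≠ 0 := by positivity
    have e3 : N + 3 * M + 3 ≠ 0 := by positivity
    have e4 : 3 * M + N + 1 ≠ 0 := by positivity
    have e5 : 3 * M + N + 1 + 1 ≠ 0 := by positivity
    have e6 : 3 * M + N + 2 + 1 ≠ 0 := by positivity
    field_simp
    ring

/-! ### Exponential sums of moment sequences are nonnegative -/

theorem IsMom.nonneg {a : ℕ → ℝ} (ha : IsMom a) (k : ℕ) {x : ℝ} (hx : 0 ≤ x) :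
    0 ≤ ∑' n : ℕ, (-x) ^ n * a (n + k) / n.factorial := by
  obtain ⟨μ, C, hμ, hC, hs, h⟩ := ha
  set F : ℕ → ℝ → ℝ := fun n t => (-x) ^ n * t ^ (n + k) / n.factorial with hF
  have hFint : ∀ n, ∫ t, F n t ∂μ = (-x) ^ n * a (n + k) / n.factorial := by
    intro n
    rw [h (n + k)]
    simp only [hF]
    rw [integral_div, integral_const_mul]
  have hbd : ∀ n, ∀ᵐ t ∂μ, ‖F n t‖ ≤ (x * C) ^ n / n.factorial * C ^ k := by
    intro n
    filter_upwards [hs] with t ht
    simp only [hF]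
    rw [norm_div, norm_mul, norm_pow, norm_neg, Real.norm_of_nonneg hx, norm_pow,
      Real.norm_of_nonneg ht.1, Real.norm_of_nonneg (by positivity : (0 : ℝ) ≤ n.factorial)]
    have h1 : t ^ (n + k) ≤ C ^ (n + k) := pow_le_pow_left₀ ht.1 ht.2 _
    calc x ^ n * t ^ (n + k) / n.factorial ≤ x ^ n * C ^ (n + k) / n.factorial := by
          gcongr
      _ = _ := by rw [pow_add, mul_pow]; ring
  have hint : ∀ n, Integrable (F n) μ := by
    intro n
    refine Integrable.mono' (integrable_const ((x * C) ^ n / n.factorial * C ^ k)) ?_ (hbd n)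
    have : Measurable (F n) := by simp only [hF]; fun_prop
    exact this.aestronglyMeasurable
  have hsum : Summable fun n => ∫ t, ‖F n t‖ ∂μ := by
    refine Summable.of_nonneg_of_le (fun n => integral_nonneg fun _ => norm_nonneg _) ?_
      (((Real.summable_pow_div_factorial (x * C)).mul_right (C ^ k)).mul_right (μ.real univ))
    intro n
    calc ∫ t, ‖F n t‖ ∂μ ≤ ∫ _t, (x * C) ^ n / n.factorial * C ^ k ∂μ :=
          integral_mono_ae (hint n).norm (integrable_const _) (hbd n)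
      _ = _ := by rw [integral_const, smul_eq_mul, mul_comm]
  have key := hasSum_integral_of_summable_integral_norm hint hsum
  simp_rw [hFint] at key
  rw [key.tsum_eq]
  apply integral_nonneg_of_ae
  filter_upwards [hs] with t ht
  have h1 : ∑' n, F n t = t ^ k * Real.exp (-x * t) := by
    rw [Real.exp_eq_exp_ℝ, NormedSpace.exp_eq_tsum_div, ← tsum_mul_left]
    apply tsum_congr
    intro n
    simp only [hF]
    rw [mul_pow, pow_add]
    ring
  rw [Pi.zero_apply, h1]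
  have := ht.1
  positivity

/-! ### The approximating moment sequences -/

/-- The Gauss-product approximations of `n! / Γ(n/3 + 13/30)²`. -/
noncomputable def a (K n : ℕ) : ℝ :=
  Real.GammaSeq (n + 1) (3 * K + 2) / Real.GammaSeq (n / 3 + 13 / 30) K ^ 2

noncomputable def cc (K : ℕ) : ℝ :=
  (3 * K + 2) * (3 * K + 2).factorial / ((K : ℝ) ^ (13 / 30 : ℝ) * K.factorial) ^ 2

noncomputable def DD (K : ℕ) : ℝ := (3 * K + 2) / ((K : ℝ) ^ (1 / 3 : ℝ)) ^ 2

theorem prod_three (x : ℝ) (K : ℕ) :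
    ∏ j ∈ Finset.range (3 * K), (x + 1 + j) =
      ∏ k ∈ Finset.range K, ((x + 3 * k + 1) * (x + 3 * k + 2) * (x + 3 * k + 3)) := by
  induction K with
  | zero => simp
  | succ K ih =>
    rw [show 3 * (K + 1) = 3 * K + 1 + 1 + 1 by ring, Finset.prod_range_succ,
      Finset.prod_range_succ, Finset.prod_range_succ, ih, Finset.prod_range_succ]
    push_cast
    ring

theorem a_eq (K n : ℕ) (hK : 0 < K) :
    a K n = cc K * DD K ^ n * ∏ k ∈ Finset.range (K + 1), r k n := by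
  unfold a Real.GammaSeq
  have hK' : (0 : ℝ) < K := Nat.cast_pos.mpr hK
  have h1 : ∏ j ∈ Finset.range (3 * K + 2 + 1), ((n : ℝ) + 1 + j) =
      ∏ k ∈ Finset.range (K + 1),
        (((n : ℝ) + 3 * k + 1) * (n + 3 * k + 2) * (n + 3 * k + 3)) := by
    rw [← prod_three]
    rfl
  rw [h1]
  have h2 : ∏ k ∈ Finset.range (K + 1), r k n =
      (∏ k ∈ Finset.range (K + 1), ((n : ℝ) / 3 + 13 / 30 + k)) ^ 2 /
      ∏ k ∈ Finset.range (K + 1),
        (((n : ℝ) + 3 * k + 1) * (n + 3 * k + 2) * (n + 3 * k + 3)) := by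
    unfold r
    rw [Finset.prod_div_distrib, Finset.prod_pow]
  rw [h2]
  have h3 : (0 : ℝ) < ∏ k ∈ Finset.range (K + 1), ((n : ℝ) / 3 + 13 / 30 + k) :=
    Finset.prod_pos fun k _ => by positivity
  have h4 : (0 : ℝ) < ∏ k ∈ Finset.range (K + 1),
        (((n : ℝ) + 3 * k + 1) * (n + 3 * k + 2) * (n + 3 * k + 3)) :=
    Finset.prod_pos fun k _ => by positivity
  have h5 : ((3 * K + 2 : ℕ) : ℝ) ^ ((n : ℝ) + 1) = (3 * K + 2) ^ n * (3 * K + 2) := by
    push_cast
    rw [Real.rpow_add (by positivity), Real.rpow_natCast, Real.rpow_one]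
  have h6 : (K : ℝ) ^ ((n : ℝ) / 3 + 13 / 30) = ((K : ℝ) ^ (1 / 3 : ℝ)) ^ n *
      (K : ℝ) ^ (13 / 30 : ℝ) := by
    rw [Real.rpow_add hK', ← Real.rpow_natCast, ← Real.rpow_mul hK'.le]
    congr 2
    ring
  rw [h5, h6]
  unfold cc DD
  have h7 : (0 : ℝ) < (K : ℝ) ^ (1 / 3 : ℝ) := Real.rpow_pos_of_pos hK' _
  have h8 : (0 : ℝ) < (K : ℝ) ^ (13 / 30 : ℝ) := Real.rpow_pos_of_pos hK' _
  generalize (K : ℝ) ^ (1 / 3 : ℝ) = A at *
  generalize (K : ℝ) ^ (13 / 30 : ℝ) = B at *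
  generalize ∏ k ∈ Finset.range (K + 1), ((n : ℝ) / 3 + 13 / 30 + k) = P at *
  generalize ∏ k ∈ Finset.range (K + 1),
        (((n : ℝ) + 3 * k + 1) * (n + 3 * k + 2) * (n + 3 * k + 3)) = R at *
  have h9 : (K.factorial : ℝ) ≠ 0 := by positivity
  rw [div_pow, div_pow, mul_pow, mul_pow, mul_pow, show (A ^ 2) ^ n = (A ^ n) ^ 2 by ring]
  have h10 : A ^ n ≠ 0 := by positivity
  field_simp

theorem isMom_a (K : ℕ) (hK : 0 < K) : IsMom (a K) := by
  have hK' : (0 : ℝ) < K := Nat.cast_pos.mpr hK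
  have h : a K = fun n => cc K * DD K ^ n * ∏ k ∈ Finset.range (K + 1), r k n :=
    funext fun n => a_eq K n hK
  rw [h]
  refine ((isMom_const (cc K) ?_).mul (isMom_pow (DD K) ?_)).mul (isMom_prod r isMom_r _)
  · unfold cc; positivity
  · unfold DD; positivity

/-! ### Uniform bounds -/

theorem a_nonneg (K n : ℕ) (hK : 0 < K) : 0 ≤ a K n := by
  have hK' : (0 : ℝ) < K := Nat.cast_pos.mpr hK
  rw [a_eq K n hK]
  have h1 : 0 ≤ cc K := by unfold cc; positivity
  have h2 : 0 ≤ DD K := by unfold DD; positivity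
  have h3 : 0 ≤ ∏ k ∈ Finset.range (K + 1), r k n :=
    Finset.prod_nonneg fun k _ => by unfold r; positivity
  positivity

theorem r_shift (k n : ℕ) : r k (n + 3) = r (k + 1) n := by
  unfold r
  push_cast
  congr 1
  · ring
  · ring

theorem prod_shift (K n : ℕ) :
    (∏ k ∈ Finset.range (K + 1), r k (n + 3)) * r 0 n =
      (∏ k ∈ Finset.range (K + 1), r k n) * r (K + 1) n := by
  simp_rw [r_shift]
  rw [← Finset.prod_range_succ (fun k => r k n) (K + 1),
    Finset.prod_range_succ' (fun k => r k n) (K + 1)]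

theorem DD_cube (K : ℕ) (hK : 0 < K) : DD K ^ 3 = (3 * K + 2) ^ 3 / (K : ℝ) ^ 2 := by
  have hK' : (0 : ℝ) < K := Nat.cast_pos.mpr hK
  unfold DD
  rw [div_pow]
  congr 1
  rw [← pow_mul, mul_comm 2 3, pow_mul, ← Real.rpow_natCast ((K : ℝ) ^ (1 / 3 : ℝ)) 3,
    ← Real.rpow_mul hK'.le]
  norm_num

theorem a_step (K n : ℕ) (hK : 0 < K) : a K (n + 3) ≤ 50 * (n + 3) * a K n := by
  have hK' : (1 : ℝ) ≤ K := Nat.one_le_cast.mpr hK
  have hn : (0 : ℝ) ≤ n := Nat.cast_nonneg n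
  have hr0 : 0 < r 0 n := by unfold r; positivity
  have h1 : a K (n + 3) * r 0 n = a K n * (DD K ^ 3 * r (K + 1) n) := by
    rw [a_eq K (n + 3) hK, a_eq K n hK, mul_assoc, prod_shift, pow_add]
    ring
  have h2 : DD K ^ 3 * r (K + 1) n ≤ 50 * (n + 3) * r 0 n := by
    rw [DD_cube K hK]
    have e1 : (3 * (K : ℝ) + 2) ^ 3 / (K : ℝ) ^ 2 ≤ 25 * (3 * K + 2) := by
      rw [div_le_iff₀ (by positivity)]
      have : (3 * (K : ℝ) + 2) ^ 2 ≤ (5 * K) ^ 2 := pow_le_pow_left₀ (by positivity) (by linarith) 2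
      nlinarith
    have e2 : r (K + 1) n ≤ 1 / (9 * (3 * K + 2)) := by
      unfold r
      rw [div_le_div_iff₀ (by positivity) (by positivity)]
      push_cast
      have t1 : ((n : ℝ) / 3 + 13 / 30 + ((K : ℝ) + 1)) ^ 2 * 9 ≤
          ((n : ℝ) + 3 * ((K : ℝ) + 1) + 2) * ((n : ℝ) + 3 * ((K : ℝ) + 1) + 3) := by nlinarith
      have t2 : 3 * (K : ℝ) + 2 ≤ n + 3 * (K + 1) + 1 := by linarith
      calc ((n : ℝ) / 3 + 13 / 30 + ((K : ℝ) + 1)) ^ 2 * (9 * (3 * (K : ℝ) + 2))
          = (((n : ℝ) / 3 + 13 / 30 + ((K : ℝ) + 1)) ^ 2 * 9) * (3 * (K : ℝ) + 2) := by ring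
        _ ≤ (((n : ℝ) + 3 * ((K : ℝ) + 1) + 2) * ((n : ℝ) + 3 * ((K : ℝ) + 1) + 3)) *
              ((n : ℝ) + 3 * ((K : ℝ) + 1) + 1) :=
            mul_le_mul t1 t2 (by positivity) (by positivity)
        _ = 1 * (((n : ℝ) + 3 * ((K : ℝ) + 1) + 1) * ((n : ℝ) + 3 * ((K : ℝ) + 1) + 2) *
              ((n : ℝ) + 3 * ((K : ℝ) + 1) + 3)) := by ring
    have e3 : 25 / 9 ≤ 50 * ((n : ℝ) + 3) * r 0 n := by
      unfold r
      push_cast
      rw [mul_zero, add_zero, add_zero, mul_div_assoc', div_le_div_iff₀ (by positivity)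
        (by positivity)]
      have t1 : ((n : ℝ) + 1) ^ 2 ≤ 9 * ((n : ℝ) / 3 + 13 / 30) ^ 2 := by nlinarith
      have t2 : ((n : ℝ) + 1) * (n + 2) * (n + 3) ≤ 2 * (n + 1) ^ 2 * (n + 3) := by
        have : (n : ℝ) + 2 ≤ 2 * (n + 1) := by linarith
        nlinarith [mul_nonneg (mul_nonneg (by linarith : (0 : ℝ) ≤ (n : ℝ) + 1)
          (by linarith : (0 : ℝ) ≤ (n : ℝ) + 3)) (by linarith : (0 : ℝ) ≤ 2 * ((n : ℝ) + 1) - (n + 2))]
      nlinarith [mul_le_mul_of_nonneg_right t1 (by linarith : (0 : ℝ) ≤ (n : ℝ) + 3)]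
    calc (3 * (K : ℝ) + 2) ^ 3 / (K : ℝ) ^ 2 * r (K + 1) n
        ≤ (25 * (3 * K + 2)) * (1 / (9 * (3 * K + 2))) :=
          mul_le_mul e1 e2 (by unfold r; positivity) (by positivity)
      _ = 25 / 9 := by field_simp
      _ ≤ _ := e3
  have h3 : a K (n + 3) * r 0 n ≤ (50 * (n + 3) * a K n) * r 0 n := by
    rw [h1]
    calc a K n * (DD K ^ 3 * r (K + 1) n) ≤ a K n * (50 * (n + 3) * r 0 n) :=
          mul_le_mul_of_nonneg_left h2 (a_nonneg K n hK)
      _ = _ := by ring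
  exact le_of_mul_le_mul_right h3 hr0

/-- The limiting sequence `n! / Γ(n/3 + 13/30)²`. -/
noncomputable def s (n : ℕ) : ℝ := n.factorial / Real.Gamma (n / 3 + 13 / 30) ^ 2

theorem a_tendsto (n : ℕ) : Tendsto (fun K => a K n) atTop (𝓝 (s n)) := by
  unfold a s
  have h1 : Tendsto (fun K : ℕ => Real.GammaSeq (n + 1) (3 * K + 2)) atTop
      (𝓝 (n.factorial : ℝ)) := by
    rw [← Real.Gamma_nat_eq_factorial]
    refine (Real.GammaSeq_tendsto_Gamma _).comp ?_
    exact tendsto_atTop_mono (fun K => (by omega : K ≤ 3 * K + 2)) tendsto_id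
  have h2 := Real.GammaSeq_tendsto_Gamma ((n : ℝ) / 3 + 13 / 30)
  have h3 : Real.Gamma ((n : ℝ) / 3 + 13 / 30) ^ 2 ≠ 0 :=
    pow_ne_zero 2 (Real.Gamma_pos_of_pos (by positivity)).ne'
  exact h1.div (h2.pow 2) h3

theorem bound_exists : ∃ Q : ℝ, 0 ≤ Q ∧ ∀ K n : ℕ, 0 < K →
    a K n ≤ Q * 4 ^ n * Real.sqrt n.factorial := by
  obtain ⟨Q0, hQ0⟩ := (a_tendsto 0).bddAbove_range
  obtain ⟨Q1, hQ1⟩ := (a_tendsto 1).bddAbove_range
  obtain ⟨Q2, hQ2⟩ := (a_tendsto 2).bddAbove_range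
  set Q := max 0 (max Q0 (max Q1 Q2)) with hQ
  have hQ' : 0 ≤ Q := le_max_left _ _
  refine ⟨Q, hQ', ?_⟩
  intro K n hK
  have b0 : a K 0 ≤ Q := (hQ0 ⟨K, rfl⟩).trans (le_max_of_le_right (le_max_left _ _))
  have b1 : a K 1 ≤ Q :=
    (hQ1 ⟨K, rfl⟩).trans (le_max_of_le_right (le_max_of_le_right (le_max_left _ _)))
  have b2 : a K 2 ≤ Q :=
    (hQ2 ⟨K, rfl⟩).trans (le_max_of_le_right (le_max_of_le_right (le_max_right _ _)))
  have base : ∀ m : ℕ, a K m ≤ Q → a K m ≤ Q * 4 ^ m * Real.sqrt m.factorial := by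
    intro m hm
    have t1 : (1 : ℝ) ≤ 4 ^ m := one_le_pow₀ (by norm_num)
    have t2 : (1 : ℝ) ≤ Real.sqrt m.factorial := by
      rw [Real.one_le_sqrt]
      exact_mod_cast m.factorial_pos
    calc a K m ≤ Q := hm
      _ = Q * 1 * 1 := by ring
      _ ≤ Q * 4 ^ m * Real.sqrt m.factorial := by gcongr
  induction n using Nat.strong_induction_on with
  | _ n ih =>
    rcases n with _ | _ | _ | m
    · exact base 0 b0
    · exact base 1 b1
    · exact base 2 b2
    · have h1 := ih m (by omega)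
      have h2 := a_step K m hK
      have h3 : Real.sqrt ((m + 1 + 1 + 1).factorial : ℝ) =
          Real.sqrt (((m : ℝ) + 1) * (m + 2) * (m + 3)) * Real.sqrt (m.factorial : ℝ) := by
        rw [← Real.sqrt_mul (by positivity)]
        congr 1
        simp only [Nat.factorial_succ]
        push_cast
        ring
      have h4 : 50 * ((m : ℝ) + 3) ≤ 64 * Real.sqrt (((m : ℝ) + 1) * (m + 2) * (m + 3)) := by
        have hm : (0 : ℝ) ≤ m := Nat.cast_nonneg m
        have : 50 / 64 * ((m : ℝ) + 3) ≤ Real.sqrt (((m : ℝ) + 1) * (m + 2) * (m + 3)) := by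
          apply Real.le_sqrt_of_sq_le
          have h5 : (50 / 64) ^ 2 * ((m : ℝ) + 3) ≤ ((m : ℝ) + 1) * ((m : ℝ) + 2) := by nlinarith
          calc (50 / 64 * ((m : ℝ) + 3)) ^ 2
              = ((50 / 64) ^ 2 * ((m : ℝ) + 3)) * ((m : ℝ) + 3) := by ring
            _ ≤ (((m : ℝ) + 1) * ((m : ℝ) + 2)) * ((m : ℝ) + 3) :=
                mul_le_mul_of_nonneg_right h5 (by positivity)
        linarith
      rw [h3]
      calc a K (m + 1 + 1 + 1) ≤ 50 * (m + 3) * a K m := h2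
        _ ≤ 50 * (m + 3) * (Q * 4 ^ m * Real.sqrt m.factorial) :=
            mul_le_mul_of_nonneg_left h1 (by positivity)
        _ ≤ (64 * Real.sqrt (((m : ℝ) + 1) * (m + 2) * (m + 3))) *
              (Q * 4 ^ m * Real.sqrt m.factorial) :=
            mul_le_mul_of_nonneg_right h4 (by positivity)
        _ = _ := by ring

theorem s_nonneg (n : ℕ) : 0 ≤ s n := by
  unfold s
  positivity

theorem summable_bound (Q : ℝ) (k : ℕ) (x : ℝ) :
    Summable fun n : ℕ => x ^ n * (Q * 4 ^ (n + k) * Real.sqrt (n + k).factorial) /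
      n.factorial := by
  apply summable_of_ratio_norm_eventually_le (r := 1 / 2) (by norm_num)
  filter_upwards [eventually_ge_atTop k,
    (tendsto_natCast_atTop_atTop (R := ℝ)).eventually_ge_atTop (128 * x ^ 2)] with n hn hx
  have hn' : (k : ℝ) ≤ n := Nat.cast_le.mpr hn
  have h3 : Real.sqrt ((n + 1 + k).factorial : ℝ) =
      Real.sqrt ((n : ℝ) + k + 1) * Real.sqrt ((n + k).factorial : ℝ) := by
    rw [← Real.sqrt_mul (by positivity), show n + 1 + k = (n + k) + 1 by ring,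
      Nat.factorial_succ]
    push_cast
    ring_nf
  have h4 : 8 * |x| * Real.sqrt ((n : ℝ) + k + 1) ≤ n + 1 := by
    have h5 : Real.sqrt (128 * x ^ 2 * ((n : ℝ) + 1)) ≤ n + 1 := by
      apply Real.sqrt_le_iff.mpr
      refine ⟨by positivity, ?_⟩
      nlinarith
    have h6 : 8 * |x| * Real.sqrt ((n : ℝ) + k + 1) = Real.sqrt (64 * x ^ 2 * ((n : ℝ) + k + 1)) := by
      rw [Real.sqrt_mul (by positivity), show (64 : ℝ) * x ^ 2 = (8 * |x|) ^ 2 by
        rw [mul_pow, sq_abs]; norm_num, Real.sqrt_sq (by positivity)]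
    rw [h6]
    refine (Real.sqrt_le_sqrt ?_).trans h5
    nlinarith [sq_nonneg x]
  rw [norm_div, norm_mul, norm_mul, norm_mul, norm_div, norm_mul, norm_mul, norm_mul,
    norm_pow x (n + 1), norm_pow x n, Real.norm_eq_abs x,
    Real.norm_of_nonneg (by positivity : (0 : ℝ) ≤ 4 ^ (n + 1 + k)),
    Real.norm_of_nonneg (by positivity : (0 : ℝ) ≤ 4 ^ (n + k)),
    Real.norm_of_nonneg (Real.sqrt_nonneg _), Real.norm_of_nonneg (Real.sqrt_nonneg _),
    Real.norm_of_nonneg (by positivity : (0 : ℝ) ≤ (n + 1).factorial),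
    Real.norm_of_nonneg (by positivity : (0 : ℝ) ≤ n.factorial), h3, Nat.factorial_succ]
  push_cast
  have h7 : |x| ^ (n + 1) * (‖Q‖ * 4 ^ (n + 1 + k) *
      (Real.sqrt ((n : ℝ) + k + 1) * Real.sqrt ((n + k).factorial : ℝ))) /
      (((n : ℝ) + 1) * n.factorial) =
      (8 * |x| * Real.sqrt ((n : ℝ) + k + 1) / (n + 1)) * (1 / 2 * (|x| ^ n * (‖Q‖ * 4 ^ (n + k) *
        Real.sqrt ((n + k).factorial : ℝ)) / n.factorial)) := by
    field_simp
    ring
  rw [h7]
  have h8 : 8 * |x| * Real.sqrt ((n : ℝ) + k + 1) / (n + 1) ≤ 1 := by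
    rw [div_le_one (by positivity)]
    exact h4
  calc _ ≤ 1 * (1 / 2 * (|x| ^ n * (‖Q‖ * 4 ^ (n + k) *
        Real.sqrt ((n + k).factorial : ℝ)) / n.factorial)) :=
        mul_le_mul_of_nonneg_right h8 (by positivity)
    _ = _ := one_mul _

theorem sum_nonneg (k : ℕ) {x : ℝ} (hx : 0 ≤ x) :
    0 ≤ ∑' n : ℕ, (-x) ^ n * s (n + k) / n.factorial := by
  obtain ⟨Q, hQ, hb⟩ := bound_exists
  have hlim : Tendsto (fun K => ∑' n : ℕ, (-x) ^ n * a K (n + k) / n.factorial) atTop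
      (𝓝 (∑' n : ℕ, (-x) ^ n * s (n + k) / n.factorial)) := by
    refine tendsto_tsum_of_dominated_convergence (summable_bound Q k x) ?_ ?_
    · intro n
      exact ((a_tendsto (n + k)).const_mul _).div_const _
    · filter_upwards [eventually_gt_atTop 0] with K hK n
      rw [norm_div, norm_mul, norm_pow, norm_neg, Real.norm_of_nonneg hx,
        Real.norm_of_nonneg (a_nonneg K _ hK),
        Real.norm_of_nonneg (by positivity : (0 : ℝ) ≤ n.factorial)]
      gcongr
      exact hb K (n + k) hK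
  refine ge_of_tendsto hlim ?_
  filter_upwards [eventually_gt_atTop 0] with K hK
  exact (isMom_a K hK).nonneg k hx

/-! ### Derivatives of the limit function -/

theorem summable_s (k : ℕ) (x : ℝ) : Summable fun n : ℕ => x ^ n * s (n + k) / n.factorial := by
  obtain ⟨Q, hQ, hb⟩ := bound_exists
  have hs : ∀ n, s n ≤ Q * 4 ^ n * Real.sqrt n.factorial := by
    intro n
    refine le_of_tendsto (a_tendsto n) ?_
    filter_upwards [eventually_gt_atTop 0] with K hK
    exact hb K n hK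
  refine Summable.of_norm_bounded (summable_bound Q k |x|) ?_
  intro n
  rw [norm_div, norm_mul, norm_pow, Real.norm_eq_abs x, Real.norm_of_nonneg (s_nonneg _),
    Real.norm_of_nonneg (by positivity : (0 : ℝ) ≤ n.factorial)]
  gcongr
  exact hs _

/-- The alternating exponential sums of the shifted limiting sequence. -/
noncomputable def g (k : ℕ) (x : ℝ) : ℝ := ∑' n : ℕ, (-x) ^ n * s (n + k) / n.factorial

theorem hasDerivAt_g (k : ℕ) (x : ℝ) : HasDerivAt (g k) (-g (k + 1) x) x := by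
  set R : ℝ := |x| + 1 with hR
  have hR0 : 0 < R := by positivity
  have key := hasDerivAt_tsum_of_isPreconnected (𝕜 := ℝ)
    (g := fun (n : ℕ) (y : ℝ) => (-y) ^ n * s (n + k) / n.factorial)
    (g' := fun (n : ℕ) (y : ℝ) => (n * (-y) ^ (n - 1) * (-1)) * s (n + k) / n.factorial)
    (u := fun n : ℕ => (n * R ^ (n - 1)) * s (n + k) / n.factorial)
    (t := Ioo (-R) R) (y₀ := 0) (y := x) ?_ isOpen_Ioo isPreconnected_Ioo ?_ ?_ ?_ ?_ ?_
  · have h2 : (∑' n : ℕ, (n * (-x) ^ (n - 1) * (-1)) * s (n + k) / n.factorial) =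
        -g (k + 1) x := by
      rw [tsum_eq_zero_add' (f := fun n : ℕ =>
        (n * (-x) ^ (n - 1) * (-1)) * s (n + k) / n.factorial)]
      · simp only [Nat.cast_zero, zero_mul, zero_div, zero_add]
        unfold g
        rw [← tsum_neg]
        apply tsum_congr
        intro n
        rw [Nat.factorial_succ, Nat.add_sub_cancel, show n + 1 + k = n + (k + 1) by ring]
        push_cast
        field_simp
      · have := (summable_s (k + 1) (-x)).neg
        refine this.congr ?_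
        intro n
        rw [Nat.factorial_succ, Nat.add_sub_cancel, show n + 1 + k = n + (k + 1) by ring]
        push_cast
        field_simp
    rw [h2] at key
    exact key
  · rw [← summable_nat_add_iff 1]
    refine (summable_s (k + 1) R).congr ?_
    intro n
    rw [Nat.factorial_succ, Nat.add_sub_cancel, show n + 1 + k = n + (k + 1) by ring]
    push_cast
    field_simp
  · intro n y _
    have h1 : HasDerivAt (fun y : ℝ => (-y) ^ n) (n * (-y) ^ (n - 1) * (-1)) y :=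
      (hasDerivAt_neg y).pow n
    exact (h1.mul_const _).div_const _
  · intro n y hy
    have hy' : |y| ≤ R := abs_le.mpr ⟨hy.1.le, hy.2.le⟩
    rw [norm_div, norm_mul, norm_mul, norm_mul, norm_pow, norm_neg, norm_neg, norm_one, mul_one,
      Real.norm_eq_abs y, Real.norm_of_nonneg (s_nonneg _),
      Real.norm_of_nonneg (by positivity : (0 : ℝ) ≤ n.factorial),
      Real.norm_of_nonneg (by positivity : (0 : ℝ) ≤ n)]
    have := s_nonneg (n + k)
    gcongr
  · exact ⟨by linarith, hR0⟩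
  · exact (summable_s k (-0)).congr fun n => rfl
  · exact abs_lt.mp (by rw [hR]; linarith)

theorem iteratedDeriv_g (k : ℕ) : iteratedDeriv k (g 0) = fun x => (-1) ^ k * g k x := by
  induction k with
  | zero => simp
  | succ k ih =>
    rw [iteratedDeriv_succ, ih]
    funext x
    rw [((hasDerivAt_g k x).const_mul ((-1) ^ k)).deriv, pow_succ]
    ring

theorem leRoy_eq (x : ℝ) : leRoy (1 / 3) (13 / 30) 2 (-x) = g 0 x := by
  unfold leRoy g s
  apply tsum_congr
  intro n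
  have h1 : (0 : ℝ) < Real.Gamma (n / 3 + 13 / 30) := Real.Gamma_pos_of_pos (by positivity)
  have h2 : (1 : ℝ) / 3 * n + 13 / 30 = n / 3 + 13 / 30 := by ring
  rw [h2, show (2 : ℝ) = ((2 : ℕ) : ℝ) by norm_num, Real.rpow_natCast, add_zero]
  have h3 : (n.factorial : ℝ) ≠ 0 := by positivity
  field_simp

theorem cm_leRoy : CM (fun x => leRoy (1 / 3) (13 / 30) 2 (-x)) := by
  have h : (fun x => leRoy (1 / 3) (13 / 30) 2 (-x)) = g 0 := funext leRoy_eq
  rw [h]
  constructor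
  · refine ContDiff.contDiffOn ?_
    refine contDiff_of_differentiable_iteratedDeriv (n := ⊤) ?_
    intro m _
    rw [iteratedDeriv_g]
    intro x
    exact ((hasDerivAt_g m x).const_mul _).differentiableAt
  · intro k x hx
    rw [iteratedDeriv_g]
    show 0 ≤ (-1) ^ k * ((-1) ^ k * g k x)
    rw [← mul_assoc, ← mul_pow]
    norm_num
    exact sum_nonneg k hx.le

theorem not_cond : ¬ Cond (1 / 3) (13 / 30) 2 := by
  intro h
  have hz := h ((7 / 8) ^ 30) (by positivity) (by norm_num)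
  have e1 : ((7 / 8 : ℝ) ^ 30) ^ ((13 / 30 : ℝ) - 1 / 3) = (7 / 8) ^ 3 := by
    rw [← Real.rpow_natCast, ← Real.rpow_mul (by norm_num), ← Real.rpow_natCast]
    congr 1
    norm_num
  have e2 : ((7 / 8 : ℝ) ^ 30) ^ (13 / 30 : ℝ) = (7 / 8) ^ 13 := by
    rw [← Real.rpow_natCast, ← Real.rpow_mul (by norm_num), ← Real.rpow_natCast]
    congr 1
    norm_num
  rw [e1, e2] at hz
  norm_num at hz

/-- **Main theorem.** The equivalence of Q1 fails: for `α = 1/3`, `β = 13/30`, `γ = 2` (so that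
`γ > 1` and `α γ < 1`) the function `x ↦ F(-x)` is completely monotone on `(0, ∞)` but the
condition `(C_{α,β,γ})` does not hold. -/
theorem result :
    (CM (fun x => leRoy (1 / 3) (13 / 30) 2 (-x)) ∧ ¬ Cond (1 / 3) (13 / 30) 2) ∧
    ¬ ∀ α β γ : ℝ, 0 < α → 0 < β → 0 < γ →
      (CM (fun x => leRoy α β γ (-x)) ↔ Cond α β γ) := by
  refine ⟨⟨cm_leRoy, not_cond⟩, fun h => not_cond ?_⟩
  exact (h (1 / 3) (13 / 30) 2 (by norm_num) (by norm_num) (by norm_num)).mp cm_leRoy

end Pool.Agent.Results.MP_b81f9a_an.LeRoyCM
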